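import Pool.Agent.Q68.OV.Main

/-!
# The standard conjecture C for one variety and the cubic hypersurfaces `T(x, y, z) = 1`

Let `F` be a perfect field, `k` its algebraic closure (for instance `F` a prime field, or `F = k`), and
let `Z` be **one** smooth projective variety over `k`. The conjecture `C(Z)` says that the Künneth
components `π_i` of the diagonal of `Z × Z` are algebraic. For a smooth projective scheme `Y` over `F`
consider the algebraic classes on `Z × Y_k` (the rational linear combinations of classes of cycles), and
the classes that are obtained from them by the operators `α ↦ α ∘ π_i` (these are the Künneth components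
of `α` with respect to the first factor): let `A^n(Y)` be the space of the algebraic classes of
codimension `n` on `Z × Y_k`, and `B^n(Y)` the space of the sums of Künneth components, with respect to
`Z`, of algebraic classes of codimension `n`. Both are additive functors of the Chow motive of `Y_k`,
and `A^n ⊆ B^n`; they are equal if and only if the Künneth components with respect to `Z` of the
algebraic classes are algebraic (`Stable`, hypothesis `bij`).

For a separated scheme `X` of finite type over `F` let `W(X)` be the weight complex of `X_k` (Gillet,
Soulé, Bondarko; a complex of Chow motives over `k` with rational coefficients, for the cohomology with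
compact supports; `W(X) = h(X_k)` for smooth projective `X`), and put `A^{n,i}(X) = H^i(A^n(W(X)))` and
`B^{n,i}(X) = H^i(B^n(W(X)))`. `BijAll C X` says that the maps `A^{n,i}(X) → B^{n,i}(X)` are isomorphisms
for all `n` and `i`: the Künneth components with respect to `Z` of the algebraic classes on `Z × X` are
algebraic.

**Theorem**, for each single variety `Z`.

(1) If the dimension of `Z` is at most `n`, then the conjecture C is true for `Z` if and only if the maps
`A^{m,i}(X) → B^{m,i}(X)` are isomorphisms for the smooth affine cubic hypersurfaces
`X : T(x, y, z) = 1` of the trilinear forms `T` with coefficients in `F` such that one of the three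
blocks of variables has at most `n + 2` variables (the other two blocks are arbitrary).

(2) The conjecture C is true for `Z` if and only if they are isomorphisms for all hypersurfaces
`T(x, y, z) = 1`. If `F` is a prime field it is enough to consider the hypersurfaces
`∑_{(i, j, l) ∈ H} x_i y_j z_l = 1` for the finite sets `H` of triples.

(3) The maps are isomorphisms for all these hypersurfaces if the dimension of `Z` is at most two, or if
`F` is finite (theorem of Katz and Messing).

Other reductions of this kind (for the conjectures B and C⁺, `MP_90138e_ag`, `MP_56c18a_ag`, helper193
and helper137 of this team) are for all varieties at the same time, with classes generated by the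
operators of all varieties; here the variety `Z` is fixed, only its own Künneth projectors are used, and
the bound for the number of variables depends on the dimension of `Z`.

In the Lean: `D.S` is a smooth projective scheme over `F` such that `Z` is a union of connected
components of `S_k` (for `F = k` it is `Z`), `D.E Y` is the cohomology of `Z × Y_k`, `D.diag` is the class
of the graph of the inclusion of `Z` in `S_k`, and `pr i` is the class `π_i` on `Z × Z ⊆ Z × S_k`.
-/

set_option autoImplicit false

open CategoryTheory CategoryTheory.Limits AlgebraicGeometry Pool.Agent.Y116.UV Pool.Agent.Z125.UN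
  Pool.Agent.Q193.LT Pool.Agent.Q68.OV

universe w

namespace Pool.Agent.Results.MP_4ca46c_ag.EachVarietyByCubics

/-- **The conjecture C for one variety and cubic hypersurfaces.** See the explanations above. -/
theorem result {F : Type} [Field F] [PerfectField F] {D : CorrData.{w} F} (hD : IsCorr D)
    {pr : ℤ → D.E D.S} (square : ∀ i, OnSquare D (pr i)) {C : PairData.{w} F (ℤ × ℤ) ℚ}
    (hC : IsWeightPair C) (hg : WeightGen C)
    (bij : ∀ Y, SmoothProj Y → (BijAll C Y ↔ Stable D pr Y)) (point : BijAll C (aff F F))
    (surfaces : topologicalKrullDim D.S.left ≤ 2 → Algebraic D pr)
    (katz_messing : Finite F → Algebraic D pr) :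
    (∀ n : ℕ, topologicalKrullDim D.S.left ≤ n → (Algebraic D pr ↔ Forms C (n + 2))) ∧
    (Algebraic D pr ↔
      ∀ (a b c : ℕ) (T : Fin a → Fin b → Fin c → F), BijAll C (hypS T)) ∧
    (Frac F → (Algebraic D pr ↔
      ∀ (a b c : ℕ) (H : Finset (Fin a × Fin b × Fin c)), BijAll C (tripS F H))) ∧
    (topologicalKrullDim D.S.left ≤ 2 ∨ Finite F →
      ∀ (a b c : ℕ) (T : Fin a → Fin b → Fin c → F), BijAll C (hypS T)) := by
  have h1 : Algebraic D pr ↔
      ∀ (a b c : ℕ) (T : Fin a → Fin b → Fin c → F), BijAll C (hypS T) :=
    (one_all hC hg hD square bij).trans ⟨fun h => h.2, fun h => ⟨point, h⟩⟩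
  refine ⟨fun n hn => (one_dim hC hg hD square bij hn).trans ⟨fun h => h.2, fun h => ⟨point, h⟩⟩,
    h1, fun hF => (one_graph hC hg hD square bij hF).trans ⟨fun h => h.2, fun h => ⟨point, h⟩⟩,
    fun h => ?_⟩
  rcases h with h | h
  · exact h1.mp (surfaces h)
  · exact h1.mp (katz_messing h)

end Pool.Agent.Results.MP_4ca46c_ag.EachVarietyByCubics
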