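import Pool.Agent.Y137.GN.Main

/-!
# The generalized conjecture of Tate and Beilinson for schemes generated by all abelian varieties of
dimension at most five and all products of elliptic curves and abelian surfaces

Over an algebraic closure of the field with `p` elements each abelian variety is isogenous to the
reduction of an abelian variety of CM type (Honda, Tate). So an abelian variety over the field with
`p ^ a` elements is modelled by `RedAV`: a finite product of CM types `(E i, Φ i)` with Weil numbers
`π i ∈ E i` that satisfy the formula of Shimura and Taniyama; its cohomology of degree `n`, with
coefficients in an algebraically closed field `Ω`, consists of the alternating `n`-forms on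
`Ω ⊗ H_1`, on which the Frobenius endomorphism acts by `π`.

We consider (`IsGoodAVS`) the abelian varieties `Y`, of any Newton polygons, such that

* the dimension of `Y` is at most five, **without any further condition**; or
* `Y` is isogenous, over an algebraic closure, to a product of a supersingular abelian variety and
  of powers of the factors of an abelian variety `Z` whose factors have dimension at most three, and
  any two of them of dimension three which are not supersingular and whose CM fields have the same
  Galois closure over `ℚ` are isogenous, unless these fields are Galois over `ℚ`; there is no condition
  on the factors of dimension one and two. So `Y` may be **any product of elliptic curves and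
  abelian surfaces**.

`Homology Ω V` are data of motivic homology `M X i j = H_i^M(X, ℚ(j))` (higher Chow groups) and of
`ℓ`-adic homology `E X i j = H_i(X, ℚ_ℓ(j))` (coefficients extended to `Ω`) of schemes `X` over a
finite field, with the Frobenius and the regulator. The class `Generated` contains the abelian
varieties above, it contains the schemes whose motives are direct summands of finite sums of twists
of motives of members, and it contains all of `Z`, `X`, `U = X ∖ Z` if it contains two of them.

The theorem: for all schemes `X` of this class - smooth or not, proper or not - and all `i`, `j` the
regulator induces an isomorphism of `H_i^M(X, ℚ(j)) ⊗ Ω` with the space of the Frobenius invariant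
elements in `H_i(X, ℚ_ℓ(j)) ⊗ Ω`, and the eigenvalue one of the Frobenius on it is semisimple.

Properties of the theory of cycles that are used for the abelian varieties `Y` (`IsChowS`,
`IsMotivic`): Poincaré duality, the formal properties of correspondences, the nilpotence of
homologically trivial correspondences (Kimura), the operation of the Frobenius endomorphism on higher
Chow groups, the vanishing of the higher rational `K`-groups of a finite field (Quillen), and the
algebraicity of the Tate classes in `AlgS` (theorems of Tate, Markman, and Ramón Marí). The passage
from the Tate conjecture to all degrees is due to Soulé, Geisser, Kahn and Jannsen.
-/

namespace Pool.Agent.Results.MP_2ce3e7_ag.DimensionFiveAndSurfaces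

open Pool.Agent.W495.TA Pool.Agent.W495.FM Pool.Agent.Y137.GN

/-- Jannsen's conjecture `TB(X)` for all members of the class generated by the abelian varieties of
dimension at most five and those with small factors. -/
theorem result (p : ℕ) [Fact p.Prime] (ν : PadicAlgCl p ≃+* ℂ) (Ω : Type) [Field Ω]
    [IsAlgClosed Ω] [CharZero Ω] (V : Type) (T : Homology Ω V) (hT : IsHomology T) (X : V)
    (hX : Generated T (IsGoodAbelianS p ν T) X) : TB T X :=
  tb_goodS hT hX

end Pool.Agent.Results.MP_2ce3e7_ag.DimensionFiveAndSurfaces
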