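import Pool.Agent.Y137.GN.Main

/-!
# Cycle class maps for schemes over finite fields generated by all abelian varieties of dimension at
most five and all products of elliptic curves and abelian surfaces, and for complements of closed
subschemes

Over an algebraic closure of the field with `p` elements each abelian variety is isogenous to the
reduction of an abelian variety of CM type (Honda, Tate). So an abelian variety over the field with
`p ^ a` elements is modelled by `RedAV`: a finite product of CM types `(E i, Φ i)` with Weil numbers
`π i ∈ E i` that satisfy the formula of Shimura and Taniyama; its cohomology of degree `n`, with
coefficients in an algebraically closed field `Ω`, consists of the alternating `n`-forms on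
`Ω ⊗ H_1`, on which the Frobenius endomorphism acts by `π`.

We consider (`IsGoodAVS`) the abelian varieties `Y`, of any Newton polygons, such that

* the dimension of `Y` is at most five, **without any further condition**; or
* `Y` is isogenous, over an algebraic closure, to a product of a supersingular abelian variety and
  of powers of the factors of an abelian variety `Z` whose factors have dimension at most three, and
  any two of them of dimension three which are not supersingular and whose CM fields have the same
  Galois closure over `ℚ` are isogenous, unless these fields are Galois over `ℚ`; there is no condition
  on the factors of dimension one and two. So `Y` may be **any product of elliptic curves and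
  abelian surfaces**.

`Homology Ω V` are data of motivic homology `M X i j = H_i^M(X, ℚ(j))` (with
`M X (2 i) i = CH_i(X)`) and of `ℓ`-adic homology `E X i j = H_i(X, ℚ_ℓ(j))` (coefficients extended to
`Ω`) of schemes `X` over a finite field. The class `Generated` contains the abelian varieties above,
it contains the schemes whose motives are direct summands of finite sums of twists of motives of
members, and it contains all of `Z`, `X`, `U = X ∖ Z` if it contains two of them.

The theorem, for all schemes `X` of this class - smooth or not, proper or not:

* the cycle class maps of `X` are bijective (onto the invariants of Frobenius, after extension of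
  scalars) for the cycles of all dimensions `i`, and the eigenvalue one of the Frobenius is
  semisimple;
* for an arbitrary closed subscheme `Z` of `X`, of dimension at most `d`, the same holds for the
  complement `U = X ∖ Z` and the cycles of dimension `i ≥ d`. Here `Z` has dimension at most `d` means
  that its homology vanishes in degrees above `2 d` and that the cycle class map is surjective in
  dimension `d`, with semisimple eigenvalue one (the homology of degree `2 d` is spanned by the
  classes of the irreducible components).

For instance, for every closed subscheme `Z` of dimension at most `d` of a product `X` of elliptic
curves and abelian surfaces, `CH_i(X ∖ Z) ⊗ ℚ_ℓ → H_{2i}(X ∖ Z, ℚ_ℓ(i))^G` is an isomorphism for all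
`i ≥ d`.
-/

namespace Pool.Agent.Results.MP_3af9db_ag.DimensionFiveAndSurfaces

open Pool.Agent.W495.TA Pool.Agent.W495.FM Pool.Agent.Y137.GN

/-- Cycle class maps of the members of the class and of complements of closed subschemes. -/
theorem result (p : ℕ) [Fact p.Prime] (ν : PadicAlgCl p ≃+* ℂ) (Ω : Type) [Field Ω]
    [IsAlgClosed Ω] [CharZero Ω] (V : Type) (T : Homology Ω V) (hT : IsHomology T)
    (hW : HasWeights T) (X : V) (hX : Generated T (IsGoodAbelianS p ν T) X) :
    (∀ i, IsIso T X i) ∧ ∀ Z U d, IsTriple T Z X U →
      ((∀ n j, 2 * d < n → ∀ e : T.E Z n j, e = 0) ∧ IsOnto T Z d) → ∀ i, d ≤ i → IsIso T U i :=
  ⟨fun i => (tb_goodS hT hX).iso hT i, fun Z U d h hZ i hi =>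
    isoAbove_goodS hT hW Z X U d h hX hZ i hi⟩

end Pool.Agent.Results.MP_3af9db_ag.DimensionFiveAndSurfaces
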