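import Pool.Agent.Y137.GN.Main

/-!
# The Tate conjecture for singular varieties over finite fields that are dominated by abelian varieties
of dimension at most five or by products of elliptic curves and abelian surfaces

Over an algebraic closure of the field with `p` elements each abelian variety is isogenous to the
reduction of an abelian variety of CM type (Honda, Tate). So an abelian variety over the field with
`p ^ a` elements is modelled by `RedAV`: a finite product of CM types `(E i, Φ i)` with Weil numbers
`π i ∈ E i` that satisfy the formula of Shimura and Taniyama.

We consider (`IsGoodAVS`) the abelian varieties `Y`, of any Newton polygons, such that

* the dimension of `Y` is at most five, without any further condition; or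
* `Y` is isogenous, over an algebraic closure, to a product of a supersingular abelian variety and
  of powers of the factors of an abelian variety `Z` whose factors have dimension at most three, and
  any two of them of dimension three which are not supersingular and whose CM fields have the same
  Galois closure over `ℚ` are isogenous, unless these fields are Galois over `ℚ`; there is no condition
  on the factors of dimension one and two. So `Y` may be any product of elliptic curves and abelian
  surfaces.

`Homology Ω V` are data of motivic homology `M X i j = H_i^M(X, ℚ(j))` (with
`M X (2 i) i = CH_i(X)`) and of `ℓ`-adic homology `E X i j = H_i(X, ℚ_ℓ(j))` (coefficients extended to
`Ω`) of varieties `X` over a finite field. The class `Generated` contains the abelian varieties above,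
the varieties whose motives are direct summands of finite sums of twists of motives of members, and
all of `Z`, `X`, `U = X ∖ Z` if it contains two of them.

The theorem is about the smallest class `Spread` of varieties, smooth or not, proper or not, reduced
or not, which

* contains the class `Generated`, and all varieties for which the cycle class maps in all dimensions
  are known to be surjective, with semisimple eigenvalue one;
* contains all **open subvarieties** and all **images under proper morphisms** of its members (for the
  push-forward along a proper surjective morphism the Frobenius has no eigenvalue one on the cokernel
  in the groups `H_{2i}(X, ℚ_ℓ(i))`, by weights: `IsImage`);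
* contains each variety that is the disjoint union of a closed and an open member, and the varieties
  whose motives are direct summands of sums of twists of motives of members.

For each variety `X` of this class and each `j` the cycle class map
`CH_j(X) ⊗ ℚ_ℓ → H_{2j}(X, ℚ_ℓ(j))^G` is surjective (after extension of scalars), and the eigenvalue
one of the Frobenius on `H_{2j}(X, ℚ_ℓ(j))` is semisimple. In particular this holds for every variety
which has a finite stratification by locally closed subvarieties each of which is the image, under a
proper morphism, of an open subvariety of a product of elliptic curves and abelian surfaces, or of an
abelian variety of dimension at most five.
-/

namespace Pool.Agent.Results.MP_40dc3c_ag.DominatedByAbelian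

open Pool.Agent.W495.TA Pool.Agent.W495.FM Pool.Agent.Y137.GN

/-- Surjectivity of the cycle class maps, and semisimplicity, for the varieties of the class. -/
theorem result (p : ℕ) [Fact p.Prime] (ν : PadicAlgCl p ≃+* ℂ) (Ω : Type) [Field Ω]
    [IsAlgClosed Ω] [CharZero Ω] (V : Type) (T : Homology Ω V) (hT : IsHomology T)
    (hW : HasWeights T) (X : V)
    (hX : Spread T (fun X => Generated T (IsGoodAbelianS p ν T) X ∨ ∀ i, IsOnto T X i) X) (j : ℤ) :
    IsOnto T X j :=
  onto_spread_goodS hT hW hX j

end Pool.Agent.Results.MP_40dc3c_ag.DominatedByAbelian
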